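import Pool.Agent.Results.MP_97806e_pr.ExpansionNotSmooth

/-!
# The annealed survival function at the scales of the offspring distribution
-/

set_option autoImplicit false

open MeasureTheory ProbabilityTheory Filter
open scoped ENNReal NNReal Topology

namespace Pool.Agent.L5helper52.QU

open Pool.Agent.R953.Branch Pool.Agent.R953.GW Pool.Agent.Results.MP_97806e_pr.ExpansionNotSmooth

/-- the contribution of the large numbers of children to the mean -/
noncomputable def uu (j : ℕ) : ℝ := (2⁻¹) ^ j / ZZ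

/-- the step -/
noncomputable def hh (j : ℕ) : ℝ := 1 / nn j

/-- the upper point -/
noncomputable def pp (j : ℕ) : ℝ := 1 / (mm - uu j - hh j)

/-- the lower point -/
noncomputable def pm (j : ℕ) : ℝ := 1 / (mm - uu j + hh j)

lemma nnR_pos (j : ℕ) : (0 : ℝ) < nn j := by exact_mod_cast nn_pos j

lemma hh_pos (j : ℕ) : 0 < hh j := one_div_pos.2 (nnR_pos j)

lemma uu_pos (j : ℕ) : 0 < uu j := div_pos (by positivity) ZZ_pos

lemma uu_ge (j : ℕ) : (2⁻¹ : ℝ) ^ j / 2 ≤ uu j := by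
  unfold uu
  exact div_le_div_of_nonneg_left (by positivity) ZZ_pos ZZ_lt.le

lemma mm_le : mm ≤ 2 := div_le_self (by norm_num) ZZ_ge

lemma hh_le {j : ℕ} (hj : 1 ≤ j) : hh j ≤ uu j / 2 := by
  refine le_trans ?_ (div_le_div_of_nonneg_right (uu_ge j) (by norm_num))
  unfold hh
  have h1 : (128 : ℝ) ^ j ≤ nn j := by exact_mod_cast nn_ge j
  rw [div_le_iff₀ (nnR_pos j)]
  have h2 : (4 : ℝ) ≤ 64 ^ j := by
    calc (4 : ℝ) ≤ 64 ^ 1 := by norm_num
      _ ≤ 64 ^ j := pow_le_pow_right₀ (by norm_num) hj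
  calc (1 : ℝ) ≤ 64 ^ j / 4 := by linarith
    _ = (2⁻¹) ^ j / 2 / 2 * 128 ^ j := by
        have h3 : (64 : ℝ) ^ j = (2⁻¹) ^ j * 128 ^ j := by rw [← mul_pow]; norm_num
        rw [h3]
        ring
    _ ≤ (2⁻¹) ^ j / 2 / 2 * nn j := mul_le_mul_of_nonneg_left h1 (by positivity)

lemma hasSum_half : HasSum (fun i : ℕ => (2⁻¹ : ℝ) ^ i) 2 := by
  have h := summable_half.hasSum
  rwa [tsum_half] at h

lemma tsum_tail (j : ℕ) : HasSum (fun i : ℕ => cc (i + (j + 1)) * nn (i + (j + 1))) (uu j) := by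
  have h1 : (fun i : ℕ => cc (i + (j + 1)) * nn (i + (j + 1))) = fun i : ℕ => (2⁻¹ : ℝ) ^ i * ((2⁻¹) ^ (j + 1) / ZZ) := by
    funext i
    rw [cc_nn, pow_add]
    ring
  rw [h1]
  have h2 : HasSum (fun i : ℕ => (2⁻¹ : ℝ) ^ i) 2 := hasSum_half
  have h3 := h2.mul_right ((2⁻¹) ^ (j + 1) / ZZ)
  have h4 : (2 : ℝ) * ((2⁻¹) ^ (j + 1) / ZZ) = uu j := by
    unfold uu
    rw [pow_succ]
    ring
  rwa [h4] at h3

lemma KK_le_sq (n : ℕ) {s : ℝ} (h0 : 0 ≤ s) (h1 : s ≤ 1) : KK n s ≤ n * (n * s) := by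
  unfold KK
  calc ∑ i ∈ Finset.range n, (1 - (1 - s) ^ i) ≤ ∑ _i ∈ Finset.range n, ((n : ℝ) * s) := by
        apply Finset.sum_le_sum
        intro i hi
        have h2 := one_add_mul_le_pow (by linarith : (-2 : ℝ) ≤ -s) i
        have h3 : (i : ℝ) ≤ n := by exact_mod_cast (Finset.mem_range.1 hi).le
        have h4 := mul_le_mul_of_nonneg_right h3 h0
        have h5 : 1 + -s = 1 - s := by ring
        rw [h5] at h2
        linarith
    _ = n * (n * s) := by rw [Finset.sum_const, Finset.card_range, nsmul_eq_mul]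

lemma KK_ge {n : ℕ} {s : ℝ} (h0 : 0 < s) (h1 : s ≤ 1) : (n : ℝ) - 1 / s ≤ KK n s := by
  have h2 := KK_mul n s
  have h3 := pow_nonneg (by linarith : (0 : ℝ) ≤ 1 - s) n
  have h4 : s * ((n : ℝ) - 1 / s) ≤ s * KK n s := by
    rw [h2, mul_sub, mul_one_div, div_self h0.ne']
    linarith
  exact le_of_mul_le_mul_left h4 h0

lemma HH_split (j : ℕ) {s : ℝ} (h0 : 0 ≤ s) (h1 : s ≤ 1) : HH s = ∑ i ∈ Finset.range (j + 1), cc i * KK (nn i) s +
    ∑' i : ℕ, cc (i + (j + 1)) * KK (nn (i + (j + 1))) s :=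
  ((summable_HH h0 h1).sum_add_tsum_nat_add (j + 1)).symm

lemma HH_le (j : ℕ) {s : ℝ} (h0 : 0 ≤ s) (h1 : s ≤ 1) : HH s ≤ uu j + 2 * (nn j * s) := by
  rw [HH_split j h0 h1, add_comm]
  apply add_le_add
  · have hs2 := (summable_nat_add_iff (j + 1)).2 (summable_HH h0 h1)
    exact hasSum_le (fun i => mul_le_mul_of_nonneg_left (KK_le _ h1) (cc_pos _).le) hs2.hasSum (tsum_tail j)
  · calc ∑ i ∈ Finset.range (j + 1), cc i * KK (nn i) s
        ≤ ∑ i ∈ Finset.range (j + 1), ((2⁻¹ : ℝ) ^ i * (nn j * s)) := by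
          apply Finset.sum_le_sum
          intro i hi
          rw [Finset.mem_range] at hi
          have h2 := mul_le_mul_of_nonneg_left (KK_le_sq (nn i) h0 h1) (cc_pos i).le
          have h3 : cc i * nn i ≤ (2⁻¹) ^ i := by
            rw [cc_nn]
            exact div_le_self (by positivity) ZZ_ge
          have h4 : (nn i : ℝ) ≤ nn j := by
            exact_mod_cast nn_strictMono.monotone (by omega : i ≤ j)
          have h5 : (nn i : ℝ) * s ≤ nn j * s := mul_le_mul_of_nonneg_right h4 h0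
          have h6 : cc i * nn i * (nn i * s) ≤ (2⁻¹) ^ i * (nn j * s) :=
            mul_le_mul h3 h5 (by positivity) (by positivity)
          linarith
      _ = (∑ i ∈ Finset.range (j + 1), (2⁻¹ : ℝ) ^ i) * (nn j * s) := by rw [Finset.sum_mul]
      _ ≤ 2 * (nn j * s) := by
          apply mul_le_mul_of_nonneg_right _ (by positivity)
          exact (summable_half.sum_le_tsum _ fun i _ => by positivity).trans_eq tsum_half

lemma HH_ge' (j : ℕ) {s : ℝ} (h0 : 0 < s) (h1 : s ≤ 1) : uu j - 1 / (nn (j + 1) * s) ≤ HH s := by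
  rw [HH_split j h0.le h1]
  have h2 : 0 ≤ ∑ i ∈ Finset.range (j + 1), cc i * KK (nn i) s :=
    Finset.sum_nonneg fun i _ => mul_nonneg (cc_pos i).le (KK_nonneg _ h0.le h1)
  have hn := nnR_pos (j + 1)
  have h3 : HasSum (fun i : ℕ => (2⁻¹ : ℝ) ^ i * ((2⁻¹) ^ (j + 1) * (1 / (nn (j + 1) * s))))
      (2 * ((2⁻¹) ^ (j + 1) * (1 / (nn (j + 1) * s)))) := by
    have h4 : HasSum (fun i : ℕ => (2⁻¹ : ℝ) ^ i) 2 := hasSum_half
    exact h4.mul_right _
  have h5 := (tsum_tail j).sub h3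
  have hs2 := (summable_nat_add_iff (j + 1)).2 (summable_HH h0.le h1)
  have h6 : uu j - 2 * ((2⁻¹) ^ (j + 1) * (1 / (nn (j + 1) * s))) ≤
      ∑' i : ℕ, cc (i + (j + 1)) * KK (nn (i + (j + 1))) s := by
    refine hasSum_le (fun i => ?_) h5 hs2.hasSum
    have h7 := mul_le_mul_of_nonneg_left (KK_ge (n := nn (i + (j + 1))) h0 h1) (cc_pos (i + (j + 1))).le
    have h8 : cc (i + (j + 1)) ≤ (2⁻¹) ^ (i + (j + 1)) / nn (j + 1) := by
      refine (cc_le_bb _).trans ?_
      unfold bb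
      have h4 : (nn (j + 1) : ℝ) ≤ nn (i + (j + 1)) := by
        exact_mod_cast nn_strictMono.monotone (by omega : j + 1 ≤ i + (j + 1))
      exact div_le_div_of_nonneg_left (by positivity) hn h4
    have h9 : cc (i + (j + 1)) * (1 / s) ≤ (2⁻¹) ^ i * ((2⁻¹) ^ (j + 1) * (1 / (nn (j + 1) * s))) := by
      refine (mul_le_mul_of_nonneg_right h8 (by positivity)).trans (le_of_eq ?_)
      rw [pow_add]
      field_simp
    linarith
  have h10 : 2 * ((2⁻¹ : ℝ) ^ (j + 1) * (1 / (nn (j + 1) * s))) ≤ 1 / (nn (j + 1) * s) := by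
    have h11 : 2 * (2⁻¹ : ℝ) ^ (j + 1) ≤ 1 := by
      rw [pow_succ]
      have : (2⁻¹ : ℝ) ^ j ≤ 1 := pow_le_one₀ (by norm_num) (by norm_num)
      linarith
    have h12 : 0 ≤ 1 / (nn (j + 1) * s) := by positivity
    nlinarith
  linarith

lemma HH_one : HH 1 = mm - 1 := by
  have h1 := gf_eq zero_le_one le_rfl
  have h2 : gf mu (1 - 1) = 0 := by
    unfold gf
    rw [tsum_mu (fun k => (1 - 1 : ℝ) ^ k)]
    have : ∀ j, cc j * (1 - 1 : ℝ) ^ nn j = 0 := by
      intro j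
      rw [sub_self, zero_pow (nn_pos j).ne', mul_zero]
    rw [tsum_congr this, tsum_zero]
  rw [h2] at h1
  linarith

lemma exists_point' {p : ℝ} (hp : pc < p) (hp1 : p < 1) :
    ∃ s, 0 < s ∧ s < 1 ∧ HH s = mm - 1 / p ∧ p * annealed mu p = s := by
  refine exists_point one_pos le_rfl hp hp1.le ?_
  rw [HH_one]
  have h1 : 1 < 1 / p := by
    rw [lt_div_iff₀ (pc_pos.trans hp)]
    linarith
  linarith

/-- upper bound below the lower point -/
lemma annealed_le {j : ℕ} {p : ℝ} (hp : pc < p) (hp1 : p < 1) (hpj : p ≤ pm j) (hd : 0 < mm - uu j + hh j) :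
    annealed mu p ≤ 1 / (64 * (nn j : ℝ) ^ 7) := by
  obtain ⟨s, hs0, hs1, hs2, hs3⟩ := exists_point' hp hp1
  have hp0 := pc_pos.trans hp
  have hn := nnR_pos j
  have hn1 := nnR_pos (j + 1)
  have h1 : mm - 1 / p ≤ uu j - hh j := by
    have h2 : mm - uu j + hh j ≤ 1 / p := by
      unfold pm at hpj
      rwa [le_div_iff₀ hp0, mul_comm, ← le_div_iff₀ hd]
    linarith
  have h3 := HH_ge' j hs0 hs1.le
  have h4 : hh j ≤ 1 / (nn (j + 1) * s) := by linarith
  have h5 : s ≤ 1 / (128 * (nn j : ℝ) ^ 7) := by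
    unfold hh at h4
    rw [div_le_div_iff₀ hn (by positivity)] at h4
    rw [le_div_iff₀ (by positivity)]
    have h6 : ((nn (j + 1) : ℕ) : ℝ) = 128 * (nn j : ℝ) ^ 8 := by
      rw [nn_succ]
      push_cast
      ring
    rw [h6] at h4
    have h7 : (nn j : ℝ) * (s * (128 * (nn j : ℝ) ^ 7)) ≤ (nn j : ℝ) * 1 := by
      calc (nn j : ℝ) * (s * (128 * (nn j : ℝ) ^ 7)) = 1 * (128 * (nn j : ℝ) ^ 8 * s) := by ring
        _ ≤ 1 * (nn j : ℝ) := h4
        _ = (nn j : ℝ) * 1 := by ring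
    exact le_of_mul_le_mul_left h7 hn
  have h8 : annealed mu p = s / p := by
    rw [eq_div_iff hp0.ne', mul_comm]
    exact hs3
  rw [h8]
  have h9 : s / p ≤ s * 2 := by
    rw [div_le_iff₀ hp0]
    have h10 : 1 ≤ mm * p := by
      unfold pc at hp
      rw [div_lt_iff₀ mm_pos] at hp
      linarith
    have h11 := mm_le
    nlinarith [mul_pos hs0 hp0]
  refine h9.trans ((mul_le_mul_of_nonneg_right h5 (by norm_num)).trans (le_of_eq ?_))
  field_simp
  ring

/-- lower bound at the upper point -/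
lemma annealed_ge {j : ℕ} (hd : 1 < mm - uu j - hh j) : 1 / (2 * (nn j : ℝ) ^ 2) ≤ annealed mu (pp j) := by
  have hp : pc < pp j := by
    unfold pc pp
    exact one_div_lt_one_div_of_lt (by linarith) (by linarith [uu_pos j, hh_pos j])
  have hp1 : pp j < 1 := by
    unfold pp
    rw [div_lt_one (by linarith)]
    exact hd
  obtain ⟨s, hs0, hs1, hs2, hs3⟩ := exists_point' hp hp1
  have hp0 := pc_pos.trans hp
  have hn := nnR_pos j
  have h1 : mm - 1 / pp j = uu j + hh j := by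
    unfold pp
    rw [one_div_one_div]
    ring
  have h2 := HH_le j hs0.le hs1.le
  have h3 : hh j ≤ 2 * (nn j * s) := by linarith
  have h4 : 1 / (2 * (nn j : ℝ) ^ 2) ≤ s := by
    unfold hh at h3
    rw [div_le_iff₀ hn] at h3
    rw [div_le_iff₀ (by positivity)]
    nlinarith
  refine h4.trans ?_
  rw [← hs3]
  have h5 : 0 ≤ annealed mu (pp j) := by
    by_contra hcon
    push Not at hcon
    have := mul_neg_of_pos_of_neg hp0 hcon
    linarith
  nlinarith

lemma tendsto_uu : Tendsto uu atTop (𝓝 0) := by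
  have h1 : Tendsto (fun j : ℕ => (2⁻¹ : ℝ) ^ j) atTop (𝓝 0) :=
    tendsto_pow_atTop_nhds_zero_of_lt_one (by norm_num) (by norm_num)
  have h2 := h1.div_const ZZ
  rw [zero_div] at h2
  exact h2

lemma tendsto_hh : Tendsto hh atTop (𝓝 0) := by
  refine tendsto_of_tendsto_of_tendsto_of_le_of_le' tendsto_const_nhds tendsto_uu
    (Eventually.of_forall fun j => (hh_pos j).le) ?_
  filter_upwards [eventually_ge_atTop 1] with j hj
  have := hh_le hj
  have := uu_pos j
  linarith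

lemma tendsto_pp : Tendsto pp atTop (𝓝 pc) := by
  have h1 : Tendsto (fun j => mm - uu j - hh j) atTop (𝓝 (mm - 0 - 0)) :=
    (tendsto_const_nhds.sub tendsto_uu).sub tendsto_hh
  rw [sub_zero, sub_zero] at h1
  exact tendsto_const_nhds.div h1 mm_pos.ne'

lemma tendsto_pm : Tendsto pm atTop (𝓝 pc) := by
  have h1 : Tendsto (fun j => mm - uu j + hh j) atTop (𝓝 (mm - 0 + 0)) :=
    (tendsto_const_nhds.sub tendsto_uu).add tendsto_hh
  rw [sub_zero, add_zero] at h1
  exact tendsto_const_nhds.div h1 mm_pos.ne'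

lemma ev_den : ∀ᶠ j in atTop, 1 < mm - uu j - hh j := by
  have h1 : Tendsto (fun j => mm - uu j - hh j) atTop (𝓝 (mm - 0 - 0)) :=
    (tendsto_const_nhds.sub tendsto_uu).sub tendsto_hh
  rw [sub_zero, sub_zero] at h1
  exact h1.eventually (lt_mem_nhds mm_gt)

/-- the distance of the two points -/
lemma pp_sub_pm {j : ℕ} (hd : 1 < mm - uu j - hh j) : 0 < pp j - pm j ∧ pp j - pm j ≤ 2 / nn j := by
  have hh0 := hh_pos j
  have h1 : pp j - pm j = 2 * hh j / ((mm - uu j - hh j) * (mm - uu j + hh j)) := by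
    unfold pp pm
    rw [div_sub_div _ _ (by linarith) (by linarith)]
    congr 1
    ring
  have h2 : 1 ≤ (mm - uu j - hh j) * (mm - uu j + hh j) := by nlinarith
  constructor
  · rw [h1]
    have : 0 < (mm - uu j - hh j) * (mm - uu j + hh j) := by linarith
    positivity
  · rw [h1]
    refine (div_le_self (by positivity) h2).trans (le_of_eq ?_)
    unfold hh
    ring

/-- the distance to the critical point -/
lemma pm_sub_pc {j : ℕ} (hj : 1 ≤ j) (hd : 1 < mm - uu j - hh j) : (2⁻¹ : ℝ) ^ j / 16 ≤ pm j - pc := by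
  have hh0 := hh_pos j
  have hu := uu_ge j
  have hu0 := uu_pos j
  have hl := hh_le hj
  have hm := mm_pos
  have hm2 := mm_le
  have h1 : pm j - pc = (uu j - hh j) / ((mm - uu j + hh j) * mm) := by
    unfold pc pm
    rw [div_sub_div _ _ (by linarith) hm.ne']
    congr 1
    ring
  have h0 : 0 < (mm - uu j + hh j) * mm := mul_pos (by linarith) hm
  rw [h1, le_div_iff₀ h0]
  have h2 : (mm - uu j + hh j) * mm ≤ 4 := by nlinarith
  have h3 : (0 : ℝ) ≤ (2⁻¹) ^ j := by positivity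
  nlinarith

end Pool.Agent.L5helper52.QU
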