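import Mathlib

/-!
# Finite differences of functions of class `C ^ k`
-/

set_option autoImplicit false

open Filter
open scoped Topology

namespace Pool.Agent.L5helper52.QU

/-- `k` derivatives, the last one bounded by `M` -/
def BD (a b M : ℝ) : ℕ → (ℝ → ℝ) → Prop
  | 0, f => ∀ x, a < x → x < b → |f x| ≤ M
  | k + 1, f => ∃ f' : ℝ → ℝ, (∀ x, a < x → x < b → HasDerivAt f (f' x) x) ∧ BD a b M k f'

/-- the finite difference of order `k` -/
def fd (h : ℝ) : ℕ → (ℝ → ℝ) → ℝ → ℝ
  | 0, f, x => f x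
  | k + 1, f, x => fd h k f (x + h) - fd h k f x

lemma fd_deriv {h : ℝ} {f f' : ℝ → ℝ} (k : ℕ) : ∀ x : ℝ, (∀ i ≤ k, HasDerivAt f (f' (x + i * h)) (x + i * h)) →
    HasDerivAt (fd h k f) (fd h k f' x) x := by
  induction k with
  | zero =>
    intro x hx
    have h1 := hx 0 le_rfl
    rw [Nat.cast_zero, zero_mul, add_zero] at h1
    exact h1
  | succ k ih =>
    intro x hx
    have h1 := ih x fun i hi => hx i (by omega)
    have h2 := ih (x + h) fun i hi => by
      have h3 := hx (i + 1) (by omega)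
      have h4 : x + ((i + 1 : ℕ) : ℝ) * h = x + h + i * h := by push_cast; ring
      rwa [h4] at h3
    have h5 : HasDerivAt (fun y => fd h k f (y + h)) (fd h k f' (x + h)) x := h2.comp_add_const x h
    exact h5.sub h1

lemma fd_bound {a b M h : ℝ} (hh : 0 < h) (k : ℕ) : ∀ f : ℝ → ℝ, BD a b M k f → ∀ x, a < x → x + k * h < b →
    |fd h k f x| ≤ M * h ^ k := by
  induction k with
  | zero =>
    intro f hf x hx hxb
    rw [Nat.cast_zero, zero_mul, add_zero] at hxb
    rw [pow_zero, mul_one]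
    exact hf x hx hxb
  | succ k ih =>
    intro f hf x hx hxb
    obtain ⟨f', hf1, hf2⟩ := hf
    have hk : (0 : ℝ) ≤ k := Nat.cast_nonneg k
    push_cast at hxb
    have hd : ∀ y ∈ Set.Icc x (x + h), HasDerivAt (fd h k f) (fd h k f' y) y := by
      intro y hy
      refine fd_deriv k y fun i hi => hf1 _ ?_ ?_
      · have : (0 : ℝ) ≤ i * h := by positivity
        linarith [hy.1]
      · have h1 : (i : ℝ) * h ≤ k * h := by
          have : (i : ℝ) ≤ k := by exact_mod_cast hi
          exact mul_le_mul_of_nonneg_right this hh.le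
        linarith [hy.2]
    have hb : ∀ y ∈ Set.Icc x (x + h), |fd h k f' y| ≤ M * h ^ k := by
      intro y hy
      exact ih f' hf2 y (by linarith [hy.1]) (by linarith [hy.2])
    have h1 := (convex_Icc x (x + h)).norm_image_sub_le_of_norm_hasDerivWithin_le
      (f := fd h k f) (f' := fd h k f') (C := M * h ^ k) (fun y hy => (hd y hy).hasDerivWithinAt)
      (fun y hy => by rw [Real.norm_eq_abs]; exact hb y hy) (x := x) (y := x + h)
      ⟨le_rfl, by linarith⟩ ⟨by linarith, le_rfl⟩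
    rw [Real.norm_eq_abs, Real.norm_eq_abs, add_sub_cancel_left, abs_of_pos hh] at h1
    calc |fd h (k + 1) f x| = |fd h k f (x + h) - fd h k f x| := rfl
      _ ≤ M * h ^ k * h := h1
      _ = M * h ^ (k + 1) := by ring

lemma fd_top {h t : ℝ} {f : ℝ → ℝ} (k : ℕ) : ∀ x, (∀ i < k, |f (x + i * h)| ≤ t) →
    |fd h k f x - f (x + k * h)| ≤ (2 ^ k - 1) * t := by
  induction k with
  | zero =>
    intro x _
    simp [fd]
  | succ k ih =>
    intro x hx
    have h1 := ih x fun i hi => hx i (by omega)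
    have h2 := ih (x + h) fun i hi => by
      have h3 := hx (i + 1) (by omega)
      have h4 : x + ((i + 1 : ℕ) : ℝ) * h = x + h + i * h := by push_cast; ring
      rwa [h4] at h3
    have h3 := hx k (by omega)
    have h4 : x + h + (k : ℝ) * h = x + ((k + 1 : ℕ) : ℝ) * h := by push_cast; ring
    rw [h4] at h2
    have h5 : fd h (k + 1) f x - f (x + ((k + 1 : ℕ) : ℝ) * h) =
        (fd h k f (x + h) - f (x + ((k + 1 : ℕ) : ℝ) * h)) - (fd h k f x - f (x + k * h)) - f (x + k * h) := by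
      show (fd h k f (x + h) - fd h k f x) - _ = _
      ring
    rw [h5]
    calc _ ≤ |fd h k f (x + h) - f (x + ((k + 1 : ℕ) : ℝ) * h)| + |fd h k f x - f (x + k * h)| + |f (x + k * h)| :=
          (abs_sub _ _).trans (add_le_add_left (abs_sub _ _) _)
      _ ≤ (2 ^ k - 1) * t + (2 ^ k - 1) * t + t := add_le_add (add_le_add h2 h1) h3
      _ = (2 ^ (k + 1) - 1) * t := by rw [pow_succ]; ring

lemma bd_of_contDiffOn {a δ : ℝ} (hδ : 0 < δ) (k : ℕ) : ∀ f : ℝ → ℝ, ContDiffOn ℝ k f (Set.Ico a (a + δ)) →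
    ∃ M, BD a (a + δ / 2) M k f := by
  have huniq : UniqueDiffOn ℝ (Set.Ico a (a + δ)) := uniqueDiffOn_Ico a (a + δ)
  induction k with
  | zero =>
    intro f hf
    have hsub : Set.Icc a (a + δ / 2) ⊆ Set.Ico a (a + δ) := fun x hx => ⟨hx.1, by linarith [hx.2]⟩
    obtain ⟨M, hM⟩ := (isCompact_Icc (a := a) (b := a + δ / 2)).exists_bound_of_continuousOn
      (hf.continuousOn.mono hsub)
    exact ⟨M, fun x h1 h2 => hM x ⟨h1.le, h2.le⟩⟩
  | succ k ih =>
    intro f hf
    have h := (contDiffOn_succ_iff_derivWithin (n := (k : WithTop ℕ∞)) huniq).1 (by exact_mod_cast hf)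
    obtain ⟨M, hM⟩ := ih _ h.2.2
    refine ⟨M, derivWithin f (Set.Ico a (a + δ)), fun x h1 h2 => ?_, hM⟩
    have hn : Set.Ico a (a + δ) ∈ 𝓝 x := Ico_mem_nhds h1 (by linarith)
    have h3 := (h.1 x ⟨h1.le, by linarith⟩).hasDerivWithinAt
    exact h3.hasDerivAt hn

end Pool.Agent.L5helper52.QU
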