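import Pool.Agent.L5helper52.QU.Lb

/-!
# The quenched survival function is rarely much smaller than a power of the annealed one
-/

set_option autoImplicit false

open MeasureTheory ProbabilityTheory Filter
open scoped ENNReal NNReal Topology

namespace Pool.Agent.L5helper52.QU

open Pool.Agent.R953.Branch Pool.Agent.R953.GW Pool.Agent.Results.MP_97806e_pr.ExpansionNotSmooth

lemma yy_mono (μ : PMF ℕ) (p : unitInterval) {a b : ℝ} (h : a ≤ b) : yy μ p a ≤ yy μ p b :=
  measureReal_mono fun T hT => by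
    have h1 : quenched T p < a := hT
    exact h1.trans_le h

/-- `√m` -/
noncomputable def lam : ℝ := Real.sqrt mm

lemma lam_sq : lam ^ 2 = mm := Real.sq_sqrt mm_pos.le

lemma lam_gt : 1 < lam := by
  unfold lam
  rw [Real.lt_sqrt zero_le_one, one_pow]
  exact mm_gt

lemma lam_lt : lam < mm := by
  have h1 := lam_sq
  have h2 := lam_gt
  nlinarith

lemma exists_xs : ∃ x : ℝ, 0 < x ∧ x ≤ 1 ∧ HH x ≤ mm - lam := by
  have h1 : ContinuousWithinAt HH (Set.Icc 0 1) 0 := HH_continuous 0 ⟨le_rfl, zero_le_one⟩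
  have h2 : ∀ᶠ x in 𝓝[Set.Icc 0 1] (0 : ℝ), HH x < mm - lam := by
    have h3 := h1.tendsto
    rw [HH_zero] at h3
    exact h3.eventually (gt_mem_nhds (by linarith [lam_lt]))
  obtain ⟨e, he, h4⟩ := Metric.mem_nhdsWithin_iff.1 h2
  refine ⟨min (e / 2) 1, lt_min (by positivity) one_pos, min_le_right _ _, le_of_lt (h4 ⟨?_, ?_⟩)⟩
  · rw [Metric.mem_ball, Real.dist_eq, sub_zero, abs_of_pos (lt_min (by positivity) one_pos)]
    exact (min_le_left _ _).trans_lt (by linarith)
  · exact ⟨(lt_min (by positivity) one_pos).le, min_le_right _ _⟩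

/-- the lower bound of the probabilities -/
noncomputable def xs : ℝ := exists_xs.choose

lemma xs_pos : 0 < xs := exists_xs.choose_spec.1
lemma xs_le : xs ≤ 1 := exists_xs.choose_spec.2.1
lemma HH_xs : HH xs ≤ mm - lam := exists_xs.choose_spec.2.2

/-- growth of small probabilities -/
lemma gf_small {x z : ℝ} (hx0 : 0 ≤ x) (hx : x ≤ xs) (hz0 : 0 ≤ z) (hz : z ≤ 1 - x) : gf mu z ≤ 1 - lam * x := by
  have h1 : gf mu z ≤ gf mu (1 - x) := gf_mono hz0 hz (by linarith)
  rw [gf_eq hx0 (hx.trans xs_le)] at h1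
  have h2 : HH x ≤ HH xs := HH_strictMono.monotoneOn ⟨hx0, hx.trans xs_le⟩ ⟨xs_pos.le, xs_le⟩ hx
  have h3 := HH_xs
  have h4 : x * lam ≤ x * (mm - HH x) := mul_le_mul_of_nonneg_left (by linarith) hx0
  linarith

lemma iter_bound (p : unitInterval) {G : ℝ} (hG : 0 ≤ G) {a : ℝ} (h0 : yy mu p a ≤ 1 - G) (n : ℕ) :
    yy mu p ((p : ℝ) ^ n * a) ≤ 1 - min xs (lam ^ n * G) := by
  induction n with
  | zero =>
    rw [pow_zero, one_mul, pow_zero, one_mul]
    linarith [min_le_right xs G]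
  | succ n ih =>
    have h1 : (p : ℝ) ^ (n + 1) * a = p * ((p : ℝ) ^ n * a) := by ring
    rw [h1]
    have h2 := yy_step mu p ((p : ℝ) ^ n * a)
    have hy := (yy_mem mu p ((p : ℝ) ^ n * a)).1
    have hl := lam_gt
    set x := min xs (lam ^ n * G) with hx
    have hx0 : 0 ≤ x := le_min xs_pos.le (by positivity)
    have h3 := gf_small hx0 (min_le_left _ _) hy ih
    have h4 : min xs (lam ^ (n + 1) * G) ≤ lam * x := by
      rw [hx, mul_min_of_nonneg _ _ (by linarith : (0 : ℝ) ≤ lam)]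
      refine min_le_min ?_ (le_of_eq (by ring))
      nlinarith [xs_pos]
    linarith

lemma quenched_large {p : unitInterval} (hp : pc < p) {G : ℝ} (hG : 0 < G) (h : G ≤ annealed mu p) :
    yy mu p (G ^ 3 / (8 * mm)) ≤ 1 - xs := by
  have hG1 : G ≤ 1 := h.trans (by
    have h1 : annealed mu p ≤ ∫ _T, (1 : ℝ) ∂(gw mu) := by
      refine integral_mono ?_ (integrable_const _) fun T => (quenched_mem T p).2
      exact integrable_of_mem (measurable_quenched p) (b := 1) fun T => by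
        rw [abs_of_nonneg (quenched_mem T p).1]
        exact (quenched_mem T p).2
    simpa using h1)
  have h0 : yy mu p (G / 2) ≤ 1 - G / 2 := by
    refine (yy_mono mu p (by linarith : G / 2 ≤ annealed mu p / 2)).trans ((yy_start mu p).trans (by linarith))
  have hl := lam_gt
  have hex : ∃ n : ℕ, xs ≤ lam ^ n * (G / 2) := by
    obtain ⟨n, hn⟩ := pow_unbounded_of_one_lt (2 / G) hl
    refine ⟨n, xs_le.trans ?_⟩
    rw [div_lt_iff₀ hG] at hn
    linarith
  classical
  set n := Nat.find hex with hn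
  have hn1 : xs ≤ lam ^ n * (G / 2) := Nat.find_spec hex
  have h1 := iter_bound p (by positivity : (0 : ℝ) ≤ G / 2) h0 n
  rw [min_eq_left hn1] at h1
  refine (yy_mono mu p ?_).trans h1
  -- lower bound for `p ^ n`
  have hpc : pc = 1 / lam ^ 2 := by rw [lam_sq]; rfl
  have hl2 : lam ^ n ≤ 2 * lam / G := by
    rw [le_div_iff₀ hG]
    rcases Nat.eq_zero_or_pos n with h2 | h2
    · rw [h2, pow_zero]
      nlinarith
    · obtain ⟨m, hm⟩ := Nat.exists_eq_succ_of_ne_zero h2.ne'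
      have h3 : ¬ xs ≤ lam ^ m * (G / 2) := Nat.find_min hex (by omega)
      push Not at h3
      rw [hm, pow_succ]
      have := xs_le
      nlinarith
  have hp0 : (1 / lam ^ 2) ^ n ≤ (p : ℝ) ^ n := by
    rw [← hpc]
    exact pow_le_pow_left₀ pc_pos.le hp.le n
  have h4 : G ^ 2 / (4 * mm) ≤ (1 / lam ^ 2) ^ n := by
    rw [one_div, inv_pow, ← pow_mul, mul_comm 2 n, pow_mul, ← lam_sq, ← one_div, div_le_div_iff₀ (by positivity) (by positivity)]
    have h5 : (lam ^ n) ^ 2 ≤ (2 * lam / G) ^ 2 := pow_le_pow_left₀ (by positivity) hl2 2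
    have h6 : G ^ 2 * (2 * lam / G) ^ 2 = 4 * lam ^ 2 := by
      field_simp
      ring
    nlinarith [mul_le_mul_of_nonneg_left h5 (sq_nonneg G)]
  have hm := mm_pos
  calc G ^ 3 / (8 * mm) = G ^ 2 / (4 * mm) * (G / 2) := by field_simp; ring
    _ ≤ (p : ℝ) ^ n * (G / 2) := mul_le_mul_of_nonneg_right (h4.trans hp0) (by positivity)

/-- the generating function near one -/
lemma gf_le {z : ℝ} (hz0 : 0 ≤ z) (hz1 : z ≤ 1) : gf mu z ≤ z * (1 - (1 - cc 0) * (1 - z)) := by
  have h1 : gf mu z = ∑' j, cc j * z ^ nn j := by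
    unfold gf
    exact tsum_mu fun k => z ^ k
  have hs : Summable fun j => cc j * z ^ nn j := (summable_mu_iff fun k => z ^ k).1 (summable_mu_pow hz0 hz1)
  have h2 : HasSum (fun j => cc j * z ^ 2 + (if j = 0 then cc 0 * (z - z ^ 2) else 0)) (1 * z ^ 2 + cc 0 * (z - z ^ 2)) :=
    (hasSum_cc.mul_right _).add (hasSum_ite_eq 0 _)
  have h3 : gf mu z ≤ 1 * z ^ 2 + cc 0 * (z - z ^ 2) := by
    rw [h1]
    refine hasSum_le (fun j => ?_) hs.hasSum h2
    by_cases hj : j = 0
    · subst hj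
      rw [if_pos rfl, nn_zero]
      exact le_of_eq (by ring)
    · rw [if_neg hj, add_zero]
      refine mul_le_mul_of_nonneg_left (pow_le_pow_of_le_one hz0 hz1 ?_) (cc_pos j).le
      obtain ⟨i, rfl⟩ := Nat.exists_eq_succ_of_ne_zero hj
      rw [nn_succ]
      have := Nat.one_le_pow 8 (nn i) (nn_pos i)
      omega
  refine h3.trans (le_of_eq (by ring))

lemma cc0_lt : cc 0 < 1 := by
  have h := hasSum_cc.summable.sum_le_tsum {0, 1} fun j _ => (cc_pos j).le
  rw [hasSum_cc.tsum_eq, Finset.sum_pair (by norm_num)] at h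
  linarith [cc_pos 1]

/-- the rate -/
noncomputable def rho : ℝ := 1 - (1 - cc 0) * xs

lemma rho_lt : rho < 1 := by
  unfold rho
  have := mul_pos (sub_pos.2 cc0_lt) xs_pos
  linarith

lemma rho_nonneg : 0 ≤ rho := by
  unfold rho
  have h1 := mul_le_mul (by linarith [cc_pos 0] : 1 - cc 0 ≤ 1) xs_le xs_pos.le zero_le_one
  linarith

/-- amplification -/
lemma amplify (p : unitInterval) {b : ℝ} (h : yy mu p b ≤ 1 - xs) (r : ℕ) :
    yy mu p ((p : ℝ) ^ r * b) ≤ rho ^ r ∧ yy mu p ((p : ℝ) ^ r * b) ≤ 1 - xs := by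
  induction r with
  | zero =>
    rw [pow_zero, one_mul, pow_zero]
    exact ⟨(yy_mem mu p b).2, h⟩
  | succ r ih =>
    have h1 : (p : ℝ) ^ (r + 1) * b = p * ((p : ℝ) ^ r * b) := by ring
    rw [h1]
    obtain ⟨h2, h3⟩ := ih
    have hy := yy_mem mu p ((p : ℝ) ^ r * b)
    set y := yy mu p ((p : ℝ) ^ r * b) with hyd
    have h4 := (yy_step mu p ((p : ℝ) ^ r * b)).trans (gf_le hy.1 hy.2)
    have h5 : y * (1 - (1 - cc 0) * (1 - y)) ≤ y * rho := by
      refine mul_le_mul_of_nonneg_left ?_ hy.1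
      unfold rho
      have := mul_le_mul_of_nonneg_left (by linarith : xs ≤ 1 - y) (sub_pos.2 cc0_lt).le
      linarith
    constructor
    · calc yy mu p (p * ((p : ℝ) ^ r * b)) ≤ y * rho := h4.trans h5
        _ ≤ rho ^ r * rho := mul_le_mul_of_nonneg_right h2 rho_nonneg
        _ = rho ^ (r + 1) := by ring
    · calc yy mu p (p * ((p : ℝ) ^ r * b)) ≤ y * rho := h4.trans h5
        _ ≤ y * 1 := mul_le_mul_of_nonneg_left rho_lt.le hy.1
        _ ≤ 1 - xs := by linarith

end Pool.Agent.L5helper52.QU
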