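import Pool.Agent.Results.MP_97806e_pr.ExpansionNotSmooth

/-!
# Lower bounds for the quenched survival function of a Galton-Watson tree
-/

set_option autoImplicit false

open MeasureTheory ProbabilityTheory Filter
open scoped ENNReal NNReal Topology

namespace Pool.Agent.L5helper52.QU

open Pool.Agent.R953.Branch Pool.Agent.R953.GW

/-- expectation of a product over the children of the root -/
lemma integral_children (μ : PMF ℕ) {f : (List ℕ → ℕ) → ℝ} (hfm : Measurable f)
    (hf01 : ∀ T, 0 ≤ f T ∧ f T ≤ 1) :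
    ∫ T, ∏ i ∈ Finset.range (T []), f (sub i T) ∂(gw μ) = gf μ (∫ T, f T ∂(gw μ)) := by
  set c := ∫ T, f T ∂(gw μ) with hc
  have hfi : Integrable f (gw μ) := integrable_of_mem hfm (b := 1) fun T => by
    rw [abs_le]
    have := hf01 T
    constructor <;> linarith
  have hc0 : 0 ≤ c := integral_nonneg fun T => (hf01 T).1
  have hc1 : c ≤ 1 := by
    have h1 : c ≤ ∫ _T, (1 : ℝ) ∂(gw μ) := integral_mono hfi (integrable_const _) fun T => (hf01 T).2
    simpa using h1
  set F : ℕ × (ℕ → List ℕ → ℕ) → ℝ := fun x => ∏ i ∈ Finset.range x.1, f (x.2 i) with hF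
  have hFm : Measurable F := measurable_prod_range hfm
  have hF01 : ∀ x, 0 ≤ F x ∧ F x ≤ 1 := fun x =>
    ⟨Finset.prod_nonneg fun i _ => (hf01 _).1, Finset.prod_le_one (fun i _ => (hf01 _).1)
      fun i _ => (hf01 _).2⟩
  have h1 : ∫ T, ∏ i ∈ Finset.range (T []), f (sub i T) ∂(gw μ) = ∫ x, F x ∂(μ.toMeasure.prod
      (Measure.infinitePi (fun _ : ℕ => gw μ))) := by
    rw [← (gw_split μ).map_eq, integral_map (gw_split μ).measurable.aemeasurable]
    exact hFm.aestronglyMeasurable
  have hFi : Integrable F (μ.toMeasure.prod (Measure.infinitePi (fun _ : ℕ => gw μ))) :=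
    integrable_of_mem hFm (b := 1) fun x => by
      rw [abs_le]
      have := hF01 x
      constructor <;> linarith
  rw [h1, integral_prod _ hFi]
  have h2 : ∀ k : ℕ, ∫ z, F (k, z) ∂(Measure.infinitePi (fun _ : ℕ => gw μ)) = c ^ k := by
    intro k
    simp only [hF]
    rw [integral_prod_range (gw μ) hfm.aestronglyMeasurable k]
  simp only [h2]
  rw [integral_pmf μ (b := 1)]
  · rfl
  · intro k
    rw [abs_le]
    constructor
    · have := pow_nonneg hc0 k
      linarith
    · exact pow_le_one₀ hc0 hc1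

lemma quenched_mem (T : List ℕ → ℕ) (p : unitInterval) : 0 ≤ quenched T p ∧ quenched T p ≤ 1 := by
  have h := tendsto_A p T
  exact ⟨ge_of_tendsto' h fun n => (A_mem p.2.1 p.2.2 n T).1, le_of_tendsto' h fun n => (A_mem p.2.1 p.2.2 n T).2⟩

/-- survival through one child -/
lemma quenched_ge_child (T : List ℕ → ℕ) (p : unitInterval) {i : ℕ} (hi : i < T []) :
    p * quenched (sub i T) p ≤ quenched T p := by
  have h1 := (tendsto_A p T).comp (tendsto_add_atTop_nat 1)
  have h2 := (tendsto_A p (sub i T)).const_mul (p : ℝ)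
  refine le_of_tendsto_of_tendsto' h2 h1 fun n => ?_
  show p * A p n (sub i T) ≤ A p (n + 1) T
  have h3 : A p (n + 1) T = 1 - ∏ i ∈ Finset.range (T []), (1 - p * A p n (sub i T)) := rfl
  have h4 : ∀ i, 0 ≤ 1 - p * A p n (sub i T) ∧ 1 - p * A p n (sub i T) ≤ 1 := by
    intro i
    have := A_mem p.2.1 p.2.2 n (sub i T)
    have hp0 := p.2.1
    have hp1 := p.2.2
    constructor
    · nlinarith
    · nlinarith [mul_nonneg hp0 this.1]
  have h5 : ∏ i ∈ Finset.range (T []), (1 - p * A p n (sub i T)) ≤ 1 - p * A p n (sub i T) := by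
    rw [← Finset.mul_prod_erase _ _ (Finset.mem_range.2 hi)]
    exact mul_le_of_le_one_right (h4 i).1 (Finset.prod_le_one (fun i _ => (h4 i).1) fun i _ => (h4 i).2)
  rw [h3]
  linarith

lemma A_mono {p q : ℝ} (hp0 : 0 ≤ p) (hpq : p ≤ q) (hq1 : q ≤ 1) (n : ℕ) :
    ∀ T, A p n T ≤ A q n T := by
  induction n with
  | zero => intro T; exact le_rfl
  | succ n ih =>
    intro T
    change 1 - _ ≤ 1 - _
    have h1 : ∏ i ∈ Finset.range (T []), (1 - q * A q n (sub i T)) ≤
        ∏ i ∈ Finset.range (T []), (1 - p * A p n (sub i T)) := by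
      refine Finset.prod_le_prod (fun i _ => ?_) fun i _ => ?_
      · have := A_mem (hp0.trans hpq) hq1 n (sub i T)
        nlinarith
      · have h2 := A_mem hp0 (hpq.trans hq1) n (sub i T)
        have h3 := A_mem (hp0.trans hpq) hq1 n (sub i T)
        have h4 := ih (sub i T)
        nlinarith [mul_le_mul hpq h4 h2.1 (hp0.trans hpq)]
    linarith

lemma quenched_mono (T : List ℕ → ℕ) {p q : unitInterval} (h : p ≤ q) : quenched T p ≤ quenched T q :=
  le_of_tendsto_of_tendsto' (tendsto_A p T) (tendsto_A q T) fun n => A_mono p.2.1 h q.2.2 n T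

/-- probability of a small survival probability -/
noncomputable def yy (μ : PMF ℕ) (p : unitInterval) (a : ℝ) : ℝ := (gw μ).real {T | quenched T p < a}

lemma meas_lt (p : unitInterval) (a : ℝ) : MeasurableSet {T : List ℕ → ℕ | quenched T p < a} :=
  measurableSet_lt (measurable_quenched p) measurable_const

lemma yy_mem (μ : PMF ℕ) (p : unitInterval) (a : ℝ) : 0 ≤ yy μ p a ∧ yy μ p a ≤ 1 :=
  ⟨measureReal_nonneg, measureReal_le_one⟩

/-- the indicator of a small survival probability -/
noncomputable def ind (p : unitInterval) (a : ℝ) (T : List ℕ → ℕ) : ℝ :=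
  ({T | quenched T p < a} : Set (List ℕ → ℕ)).indicator (fun _ => (1 : ℝ)) T

lemma ind_of_lt {p : unitInterval} {a : ℝ} {T : List ℕ → ℕ} (h : quenched T p < a) : ind p a T = 1 :=
  Set.indicator_of_mem (show T ∈ {T : List ℕ → ℕ | quenched T p < a} from h) _

lemma ind_of_not {p : unitInterval} {a : ℝ} {T : List ℕ → ℕ} (h : ¬ quenched T p < a) : ind p a T = 0 :=
  Set.indicator_of_notMem (show T ∉ {T : List ℕ → ℕ | quenched T p < a} from h) _

lemma ind_mem (p : unitInterval) (a : ℝ) (T : List ℕ → ℕ) : 0 ≤ ind p a T ∧ ind p a T ≤ 1 := by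
  by_cases h : quenched T p < a
  · rw [ind_of_lt h]; exact ⟨zero_le_one, le_rfl⟩
  · rw [ind_of_not h]; exact ⟨le_rfl, zero_le_one⟩

lemma ind_meas (p : unitInterval) (a : ℝ) : Measurable (ind p a) :=
  measurable_const.indicator (meas_lt p a)

lemma yy_eq (μ : PMF ℕ) (p : unitInterval) (a : ℝ) : yy μ p a = ∫ T, ind p a T ∂(gw μ) := by
  unfold ind
  rw [integral_indicator_const _ (meas_lt p a)]
  simp [yy]

lemma measurable_children {f : (List ℕ → ℕ) → ℝ} (hf : Measurable f) :
    Measurable fun T : List ℕ → ℕ => ∏ i ∈ Finset.range (T []), f (sub i T) := by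
  have h2 : Measurable (fun T : List ℕ → ℕ => (T [], fun i => sub i T)) :=
    Measurable.prodMk (measurable_pi_apply _) (measurable_pi_lambda _ fun i => measurable_sub i)
  have h3 := (measurable_prod_range hf).comp h2
  exact h3

/-- one step -/
lemma yy_step (μ : PMF ℕ) (p : unitInterval) (a : ℝ) : yy μ p (p * a) ≤ gf μ (yy μ p a) := by
  rw [yy_eq μ p a, ← integral_children μ (ind_meas p a) (ind_mem p a), yy_eq]
  have h1 : Integrable (ind p (p * a)) (gw μ) :=
    integrable_of_mem (ind_meas p _) (b := 1) fun T => by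
      rw [abs_of_nonneg (ind_mem p _ T).1]
      exact (ind_mem p _ T).2
  have h2 : Integrable (fun T : List ℕ → ℕ => ∏ i ∈ Finset.range (T []), ind p a (sub i T)) (gw μ) :=
    integrable_of_mem (measurable_children (ind_meas p a)) (b := 1) fun T => by
      rw [abs_of_nonneg (Finset.prod_nonneg fun i _ => (ind_mem p a _).1)]
      exact Finset.prod_le_one (fun i _ => (ind_mem p a _).1) fun i _ => (ind_mem p a _).2
  have h3 : ∀ T : List ℕ → ℕ, ind p (p * a) T ≤ ∏ i ∈ Finset.range (T []), ind p a (sub i T) := by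
    intro T
    by_cases hT : quenched T p < p * a
    · have h4 : ∀ i ∈ Finset.range (T []), ind p a (sub i T) = 1 := by
        intro i hi
        refine ind_of_lt ?_
        by_contra hcon
        push Not at hcon
        have h5 := quenched_ge_child T p (Finset.mem_range.1 hi)
        have h6 := mul_le_mul_of_nonneg_left hcon p.2.1
        linarith
      rw [Finset.prod_congr rfl h4, Finset.prod_const_one]
      exact (ind_mem _ _ T).2
    · rw [ind_of_not hT]
      exact Finset.prod_nonneg fun i _ => (ind_mem p a _).1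
  exact integral_mono h1 h2 h3

/-- the start -/
lemma yy_start (μ : PMF ℕ) (p : unitInterval) : yy μ p (annealed μ p / 2) ≤ 1 - annealed μ p / 2 := by
  set G := annealed μ p with hG
  have hq : Integrable (fun T => quenched T p) (gw μ) := integrable_of_mem (measurable_quenched p) (b := 1) fun T => by
    rw [abs_of_nonneg (quenched_mem T p).1]
    exact (quenched_mem T p).2
  have hG0 : 0 ≤ G := integral_nonneg fun T => (quenched_mem T p).1
  have hi : Integrable (ind p (G / 2)) (gw μ) :=
    integrable_of_mem (ind_meas p _) (b := 1) fun T => by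
      rw [abs_of_nonneg (ind_mem p _ T).1]
      exact (ind_mem p _ T).2
  have h3 : ∀ T : List ℕ → ℕ, quenched T p ≤ (G / 2 + 1) - ind p (G / 2) T := by
    intro T
    by_cases hT : quenched T p < G / 2
    · rw [ind_of_lt hT]
      linarith
    · rw [ind_of_not hT]
      have := (quenched_mem T p).2
      linarith
  have h1 : G ≤ ∫ T, ((G / 2 + 1) - ind p (G / 2) T) ∂(gw μ) :=
    integral_mono hq ((integrable_const _).sub hi) h3
  rw [integral_sub (integrable_const _) hi, ← yy_eq, integral_const, probReal_univ, one_smul] at h1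
  linarith

end Pool.Agent.L5helper52.QU
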