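import Pool.Agent.L5helper52.QU.It
import Pool.Agent.L5helper52.QU.An
import Pool.Agent.L5helper52.QU.Fd

/-!
# The quenched survival function has expansions of all orders at criticality but is not smooth there
-/

set_option autoImplicit false

open MeasureTheory ProbabilityTheory Filter
open scoped ENNReal NNReal Topology

namespace Pool.Agent.L5helper52.QU

open Pool.Agent.R953.Branch Pool.Agent.R953.GW Pool.Agent.Results.MP_97806e_pr.ExpansionNotSmooth

lemma growth (K : ℕ) : ∀ᶠ j : ℕ in atTop, (2 : ℝ) ^ (K * j) ≤ nn j := by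
  filter_upwards [eventually_ge_atTop K] with j hj
  have h1 : K ≤ 4 ^ j := by
    calc K ≤ j := hj
      _ ≤ 2 ^ j := Nat.lt_two_pow_self.le
      _ ≤ 4 ^ j := Nat.pow_le_pow_left (by norm_num) j
  have h2 : j + 1 ≤ 2 ^ j := Nat.lt_two_pow_self
  have h3 : K * j + 1 ≤ 8 ^ j := by
    have h4 : 8 ^ j = 4 ^ j * 2 ^ j := by rw [← Nat.mul_pow]
    have h5 : 1 ≤ 4 ^ j := Nat.one_le_pow _ _ (by norm_num)
    rw [h4]
    calc K * j + 1 ≤ 4 ^ j * j + 4 ^ j := add_le_add (Nat.mul_le_mul_right _ h1) h5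
      _ = 4 ^ j * (j + 1) := by ring
      _ ≤ 4 ^ j * 2 ^ j := Nat.mul_le_mul_left _ h2
  have h6 : 2 ^ (K * j) ≤ nn j := by
    unfold nn
    exact Nat.pow_le_pow_right (by norm_num) (by omega)
  exact_mod_cast h6

lemma quenched_proj (T : List ℕ → ℕ) (p : ℝ) :
    quenched T p = quenched T ((Set.projIcc 0 1 zero_le_one p : unitInterval) : ℝ) := by
  unfold quenched
  rw [Set.projIcc_val]

lemma annealed_proj (p : ℝ) : annealed mu p = annealed mu ((Set.projIcc 0 1 zero_le_one p : unitInterval) : ℝ) := by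
  unfold annealed
  exact integral_congr_ae (Eventually.of_forall fun T => quenched_proj T p)

lemma quenched_nonneg (T : List ℕ → ℕ) (p : ℝ) : 0 ≤ quenched T p := by
  rw [quenched_proj]
  exact (quenched_mem T _).1

lemma quenched_monotone (T : List ℕ → ℕ) : Monotone (quenched T) := by
  intro p q h
  rw [quenched_proj T p, quenched_proj T q]
  exact quenched_mono T (Set.monotone_projIcc zero_le_one h)

lemma measurable_quenched' (p : ℝ) : Measurable fun T : List ℕ → ℕ => quenched T p := by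
  have h : (fun T : List ℕ → ℕ => quenched T p) =
      fun T => quenched T ((Set.projIcc 0 1 zero_le_one p : unitInterval) : ℝ) := funext fun T => quenched_proj T p
  rw [h]
  exact measurable_quenched _

/-- the upper bound at the lower points -/
noncomputable def tt (j : ℕ) : ℝ := 2 ^ j * (1 / (64 * (nn j : ℝ) ^ 7))

lemma tt_pos (j : ℕ) : 0 < tt j := by
  unfold tt
  have := nnR_pos j
  positivity

/-- the lower bound at the upper points -/
noncomputable def bl (j : ℕ) : ℝ := (1 / (2 * (nn j : ℝ) ^ 2)) ^ 3 / (8 * mm)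

lemma bl_pos (j : ℕ) : 0 < bl j := by
  unfold bl
  have := nnR_pos j
  have := mm_pos
  positivity

lemma pm_gt {j : ℕ} (hj : 1 ≤ j) (hd : 1 < mm - uu j - hh j) : pc < pm j := by
  have h1 := pm_sub_pc hj hd
  have h2 : (0 : ℝ) < (2⁻¹) ^ j / 16 := by positivity
  linarith

lemma pp_lt {j : ℕ} (hd : 1 < mm - uu j - hh j) : pp j < 1 := by
  unfold pp
  rw [div_lt_one (by linarith)]
  exact hd

/-- **upper bound**, almost surely -/
theorem upper : ∀ᵐ T ∂(gw mu), ∀ᶠ j in atTop, quenched T (pm j) < tt j := by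
  obtain ⟨J₀, hJ₀⟩ := eventually_atTop.1 ev_den
  set J := max J₀ 1 with hJ
  set s : ℕ → Set (List ℕ → ℕ) := fun n => {T | tt (n + J) ≤ quenched T (pm (n + J))} with hs
  have hb : ∀ n, gw mu (s n) ≤ ENNReal.ofReal ((2⁻¹) ^ n) := by
    intro n
    set j := n + J with hj
    have hd := hJ₀ j (by omega)
    have hj1 : 1 ≤ j := by omega
    have h1 := pm_gt hj1 hd
    have h2 := pp_sub_pm hd
    have h3 := pp_lt hd
    have h4 : annealed mu (pm j) ≤ 1 / (64 * (nn j : ℝ) ^ 7) :=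
      annealed_le h1 (by linarith) le_rfl (by linarith [hh_pos j])
    have hint : Integrable (fun T => quenched T (pm j)) (gw mu) := by
      refine integrable_of_mem (measurable_quenched' _) (b := 1) fun T => ?_
      rw [quenched_proj, abs_of_nonneg (quenched_mem T _).1]
      exact (quenched_mem T _).2
    have h5 := mul_meas_ge_le_integral_of_nonneg (μ := gw mu)
      (Eventually.of_forall fun T => quenched_nonneg T (pm j)) hint (tt j)
    have h6 : (gw mu).real (s n) ≤ (2⁻¹) ^ j := by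
      have h7 : tt j * (gw mu).real (s n) ≤ 1 / (64 * (nn j : ℝ) ^ 7) := h5.trans h4
      have h8 : 1 / (64 * (nn j : ℝ) ^ 7) = tt j * (2⁻¹) ^ j := by
        unfold tt
        rw [mul_comm ((2 : ℝ) ^ j), mul_assoc, ← mul_pow]
        norm_num
      rw [h8] at h7
      exact le_of_mul_le_mul_left h7 (tt_pos j)
    have h7 : (gw mu).real (s n) ≤ (2⁻¹) ^ n :=
      h6.trans (pow_le_pow_of_le_one (by norm_num) (by norm_num) (by omega))
    rw [← ofReal_measureReal]
    exact ENNReal.ofReal_le_ofReal h7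
  have hsum : ∑' n, gw mu (s n) ≠ ∞ := by
    refine ne_top_of_le_ne_top ?_ (ENNReal.tsum_le_tsum hb)
    rw [← ENNReal.ofReal_tsum_of_nonneg (fun n => by positivity) summable_half]
    exact ENNReal.ofReal_ne_top
  filter_upwards [ae_eventually_notMem hsum] with T hT
  obtain ⟨N, hN⟩ := eventually_atTop.1 hT
  refine eventually_atTop.2 ⟨N + J, fun j hj => ?_⟩
  have h1 := hN (j - J) (by omega)
  have h2 : j - J + J = j := by omega
  simp only [hs, Set.mem_ofPred_eq, h2, not_le] at h1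
  exact h1

/-- **lower bound**, almost surely for some constant -/
theorem lower : ∀ᵐ T ∂(gw mu), ∃ r : ℕ, ∀ J, ∃ j, J ≤ j ∧ pp j ^ r * bl j ≤ quenched T (pp j) := by
  obtain ⟨J₀, hJ₀⟩ := eventually_atTop.1 ev_den
  rw [ae_iff]
  set N : Set (List ℕ → ℕ) := {T | ¬ ∃ r : ℕ, ∀ J, ∃ j, J ≤ j ∧ pp j ^ r * bl j ≤ quenched T (pp j)} with hN
  have key : ∀ r : ℕ, gw mu N ≤ ENNReal.ofReal (rho ^ r) := by
    intro r
    set D : ℕ → Set (List ℕ → ℕ) := fun J => {T | ∀ j, J ≤ j → quenched T (pp j) < pp j ^ r * bl j} with hD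
    have hmono : Monotone D := fun J J' h T hT j hj => hT j (h.trans hj)
    have hsub : N ⊆ ⋃ J, D J := by
      intro T hT
      have h1 : ¬ ∃ r : ℕ, ∀ J, ∃ j, J ≤ j ∧ pp j ^ r * bl j ≤ quenched T (pp j) := hT
      push Not at h1
      obtain ⟨J, hJ⟩ := h1 r
      exact Set.mem_iUnion.2 ⟨J, hJ⟩
    refine (measure_mono hsub).trans ?_
    rw [hmono.measure_iUnion]
    refine iSup_le fun J => ?_
    set j := max J J₀ with hj
    have hd := hJ₀ j (le_max_right _ _)
    have h2 : pc < pp j := by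
      unfold pc pp
      exact one_div_lt_one_div_of_lt (by linarith) (by linarith [uu_pos j, hh_pos j])
    have h3 := pp_lt hd
    set p : unitInterval := ⟨pp j, (pc_pos.trans h2).le, h3.le⟩ with hp
    have h4 : yy mu p (bl j) ≤ 1 - xs := by
      have hn := nnR_pos j
      exact quenched_large (p := p) h2 (by positivity) (annealed_ge hd)
    have h5 := (amplify p h4 r).1
    have h6 : D J ⊆ {T | quenched T p < (p : ℝ) ^ r * bl j} := fun T hT => hT j (le_max_left _ _)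
    refine (measure_mono h6).trans ?_
    rw [← ofReal_measureReal]
    exact ENNReal.ofReal_le_ofReal h5
  have h1 : Tendsto (fun r : ℕ => ENNReal.ofReal (rho ^ r)) atTop (𝓝 0) := by
    rw [← ENNReal.ofReal_zero]
    exact ENNReal.tendsto_ofReal (tendsto_pow_atTop_nhds_zero_of_lt_one rho_nonneg rho_lt)
  exact le_antisymm (ge_of_tendsto' h1 key) bot_le

/-- the expansion -/
theorem expansion_of {T : List ℕ → ℕ} (hU : ∀ᶠ j in atTop, quenched T (pm j) < tt j) (k : ℕ) :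
    HasExpansion (quenched T) pc k := by
  refine ⟨fun _ => 0, ?_⟩
  simp only [zero_mul, Finset.sum_const_zero, sub_zero]
  rw [Asymptotics.isLittleO_iff]
  intro c hc
  have hgr : ∀ᶠ j : ℕ in atTop, tt j ≤ c * ((2⁻¹ : ℝ) ^ (j + 1) / 16) ^ k := by
    have h1 : ∀ᶠ j : ℕ in atTop, 32 ^ k / (64 * c) ≤ (2 : ℝ) ^ j :=
      (tendsto_pow_atTop_atTop_of_one_lt (by norm_num : (1 : ℝ) < 2)).eventually_ge_atTop _
    filter_upwards [growth (k + 2), h1] with j h2 h3
    unfold tt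
    have hn := nnR_pos j
    have hn1 : (1 : ℝ) ≤ nn j := by exact_mod_cast nn_pos j
    have h4 : c * ((2⁻¹ : ℝ) ^ (j + 1) / 16) ^ k = c / (32 ^ k * 2 ^ (k * j)) := by
      rw [pow_succ, div_pow, mul_pow, ← pow_mul, mul_comm j k, inv_pow, inv_pow]
      have : (32 : ℝ) ^ k = 2 ^ k * 16 ^ k := by rw [← mul_pow]; norm_num
      rw [this]
      field_simp
    rw [h4, mul_one_div, div_le_div_iff₀ (by positivity) (by positivity)]
    have h5 : (2 : ℝ) ^ ((k + 2) * j) = 2 ^ (k * j) * 2 ^ j * 2 ^ j := by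
      rw [← pow_add, ← pow_add]
      congr 1
      ring
    have h6 : (nn j : ℝ) ≤ (nn j : ℝ) ^ 7 := by
      calc (nn j : ℝ) = (nn j : ℝ) ^ 1 := (pow_one _).symm
        _ ≤ (nn j : ℝ) ^ 7 := pow_le_pow_right₀ hn1 (by norm_num)
    have h7 : 32 ^ k ≤ 64 * c * (2 : ℝ) ^ j := by
      rw [div_le_iff₀ (by positivity)] at h3
      linarith
    calc (2 : ℝ) ^ j * (32 ^ k * 2 ^ (k * j)) = 32 ^ k * (2 ^ j * 2 ^ (k * j)) := by ring
      _ ≤ (64 * c * (2 : ℝ) ^ j) * (2 ^ j * 2 ^ (k * j)) := mul_le_mul_of_nonneg_right h7 (by positivity)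
      _ = 64 * c * 2 ^ ((k + 2) * j) := by rw [h5]; ring
      _ ≤ 64 * c * (nn j : ℝ) ^ 7 := mul_le_mul_of_nonneg_left (h2.trans h6) (by positivity)
      _ = c * (64 * (nn j : ℝ) ^ 7) := by ring
  obtain ⟨J, hJ⟩ := eventually_atTop.1 (hU.and (hgr.and (ev_den.and (eventually_ge_atTop 1))))
  have hpJ : 0 < pm J - pc := sub_pos.2 (pm_gt (hJ J le_rfl).2.2.2 (hJ J le_rfl).2.2.1)
  have h1 : ∀ᶠ ε : ℝ in 𝓝[>] 0, ε < pm J - pc := by
    have h3 : Tendsto (fun ε : ℝ => ε) (𝓝[>] 0) (𝓝 0) := tendsto_id.mono_left nhdsWithin_le_nhds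
    exact h3.eventually (gt_mem_nhds hpJ)
  filter_upwards [h1, self_mem_nhdsWithin] with ε h2 hε
  rw [Set.mem_Ioi] at hε
  have hex : ∃ i : ℕ, pm (J + i + 1) < pc + ε := by
    have h3 : ∀ᶠ j in atTop, pm j < pc + ε := tendsto_pm.eventually (gt_mem_nhds (by linarith))
    obtain ⟨N, hN⟩ := eventually_atTop.1 h3
    exact ⟨N, hN _ (by omega)⟩
  classical
  set i := Nat.find hex with hi
  have hi1 : pm (J + i + 1) < pc + ε := Nat.find_spec hex
  have hi2 : pc + ε ≤ pm (J + i) := by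
    rcases Nat.eq_zero_or_pos i with h3 | h3
    · rw [h3, add_zero]
      linarith
    · obtain ⟨m, hm⟩ := Nat.exists_eq_succ_of_ne_zero h3.ne'
      have h4 : ¬ pm (J + m + 1) < pc + ε := Nat.find_min hex (by omega)
      rw [hm]
      exact not_lt.1 h4
  obtain ⟨h5, h6, -, -⟩ := hJ (J + i) (by omega)
  obtain ⟨-, -, h7, h8⟩ := hJ (J + i + 1) (by omega)
  have h9 := pm_sub_pc h8 h7
  rw [Real.norm_of_nonneg (quenched_nonneg T _), Real.norm_of_nonneg (by positivity)]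
  calc quenched T (pc + ε) ≤ quenched T (pm (J + i)) := quenched_monotone T hi2
    _ ≤ tt (J + i) := h5.le
    _ ≤ c * ((2⁻¹ : ℝ) ^ (J + i + 1) / 16) ^ k := h6
    _ ≤ c * ε ^ k := by
        refine mul_le_mul_of_nonneg_left (pow_le_pow_left₀ (by positivity) ?_ k) hc.le
        linarith

/-- no derivatives of order `k ≥ 7` -/
theorem not_class_of {T : List ℕ → ℕ} (hU : ∀ᶠ j in atTop, quenched T (pm j) < tt j)
    (hL : ∃ r : ℕ, ∀ J, ∃ j, J ≤ j ∧ pp j ^ r * bl j ≤ quenched T (pp j)) {k : ℕ} (hk : 7 ≤ k) :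
    ¬ IsClass (quenched T) pc k := by
  rintro ⟨δ, hδ, hf⟩
  obtain ⟨M, hM⟩ := bd_of_contDiffOn hδ k _ hf
  obtain ⟨r, hr⟩ := hL
  have hm := mm_pos
  have hpc := pc_pos
  -- the final inequality fails for large `j`
  have e1 : Tendsto (fun j : ℕ => (2 : ℝ) ^ j / nn j) atTop (𝓝 0) := by
    have h1 : Tendsto (fun j : ℕ => (64⁻¹ : ℝ) ^ j) atTop (𝓝 0) :=
      tendsto_pow_atTop_nhds_zero_of_lt_one (by norm_num) (by norm_num)
    refine squeeze_zero (fun j => by have := nnR_pos j; positivity) (fun j => ?_) h1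
    rw [div_le_iff₀ (nnR_pos j)]
    have h2 : (128 : ℝ) ^ j ≤ nn j := by exact_mod_cast nn_ge j
    calc (2 : ℝ) ^ j = (64⁻¹) ^ j * 128 ^ j := by rw [← mul_pow]; norm_num
      _ ≤ (64⁻¹) ^ j * nn j := mul_le_mul_of_nonneg_left h2 (by positivity)
  have e2 : ∀ᶠ j : ℕ in atTop, (|M| * 2 ^ k + 2 ^ k) * ((2 : ℝ) ^ j / nn j) < pc ^ r / (64 * mm) := by
    have h1 := e1.const_mul (|M| * 2 ^ k + 2 ^ k)
    rw [mul_zero] at h1
    exact h1.eventually (gt_mem_nhds (by positivity))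
  have e3 : ∀ᶠ j : ℕ in atTop, k * (2 / (nn j : ℝ)) < (2⁻¹) ^ j / 16 := by
    have h1 : ∀ᶠ j : ℕ in atTop, (32 * k + 1 : ℝ) ≤ (2 : ℝ) ^ j :=
      (tendsto_pow_atTop_atTop_of_one_lt (by norm_num : (1 : ℝ) < 2)).eventually_ge_atTop _
    filter_upwards [h1, growth 2] with j h2 h3
    have hn := nnR_pos j
    rw [← mul_div_assoc, div_lt_iff₀ hn]
    have h4 : (2⁻¹ : ℝ) ^ j / 16 * (2 : ℝ) ^ (2 * j) ≤ (2⁻¹) ^ j / 16 * nn j :=
      mul_le_mul_of_nonneg_left h3 (by positivity)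
    have h5 : (2⁻¹ : ℝ) ^ j / 16 * (2 : ℝ) ^ (2 * j) = 2 ^ j / 16 := by
      rw [two_mul, pow_add, inv_pow]
      field_simp
    linarith
  have e4 : ∀ᶠ j in atTop, pp j < pc + δ / 2 := tendsto_pp.eventually (gt_mem_nhds (by linarith))
  obtain ⟨J, hJ⟩ := eventually_atTop.1 (hU.and (e2.and (e3.and (e4.and (ev_den.and (eventually_ge_atTop 1))))))
  obtain ⟨j, hj, hlow⟩ := hr J
  obtain ⟨h1, h2, h3, h4, h5, h6⟩ := hJ j hj
  obtain ⟨hΔ0, hΔ⟩ := pp_sub_pm h5
  set Δ := pp j - pm j with hΔd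
  set y := pp j - k * Δ with hy
  have hn := nnR_pos j
  have hk0 : (0 : ℝ) ≤ k := Nat.cast_nonneg k
  have hkΔ : (k : ℝ) * Δ ≤ k * (2 / (nn j : ℝ)) := mul_le_mul_of_nonneg_left hΔ hk0
  have hpm := pm_sub_pc h6 h5
  have hy1 : pc < y := by
    rw [hy]
    linarith
  have hy2 : y + k * Δ = pp j := by rw [hy]; ring
  have h7 := fd_bound hΔ0 k _ hM y hy1 (by rw [hy2]; exact h4)
  have h8 : ∀ i < k, |quenched T (y + i * Δ)| ≤ tt j := by
    intro i hi
    rw [abs_of_nonneg (quenched_nonneg T _)]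
    refine (quenched_monotone T ?_).trans h1.le
    have h9 : ((i : ℝ) + 1) * Δ ≤ k * Δ := by
      have : (i : ℝ) + 1 ≤ k := by exact_mod_cast hi
      exact mul_le_mul_of_nonneg_right this hΔ0.le
    rw [hy]
    linarith
  have h9 := fd_top (h := Δ) (t := tt j) (f := quenched T) k y h8
  rw [hy2] at h9
  have h10 : quenched T (pp j) ≤ |M| * Δ ^ k + 2 ^ k * tt j := by
    have h11 := abs_le.1 h7
    have h12 := abs_le.1 h9
    have h13 : M * Δ ^ k ≤ |M| * Δ ^ k := mul_le_mul_of_nonneg_right (le_abs_self M) (by positivity)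
    have h14 := tt_pos j
    linarith
  have h11 : pc ^ r * bl j ≤ pp j ^ r * bl j := by
    refine mul_le_mul_of_nonneg_right (pow_le_pow_left₀ hpc.le ?_ r) (bl_pos j).le
    have h12 : (0 : ℝ) < (2⁻¹) ^ j / 16 := by positivity
    linarith
  have hn1 : (1 : ℝ) ≤ nn j := by exact_mod_cast nn_pos j
  have h12 : Δ ^ k ≤ 2 ^ k * (1 / (nn j : ℝ) ^ 7) := by
    calc Δ ^ k ≤ (2 / (nn j : ℝ)) ^ k := pow_le_pow_left₀ hΔ0.le hΔ k
      _ = 2 ^ k * (1 / (nn j : ℝ) ^ k) := by rw [div_pow]; ring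
      _ ≤ 2 ^ k * (1 / (nn j : ℝ) ^ 7) := by
          refine mul_le_mul_of_nonneg_left ?_ (by positivity)
          exact one_div_le_one_div_of_le (by positivity) (pow_le_pow_right₀ hn1 hk)
  have h13 : pc ^ r * bl j ≤ |M| * (2 ^ k * (1 / (nn j : ℝ) ^ 7)) + 2 ^ k * tt j := by
    have h14 := mul_le_mul_of_nonneg_left h12 (abs_nonneg M)
    linarith
  have h14 : bl j = 1 / (64 * mm) * (1 / (nn j : ℝ) ^ 6) := by
    unfold bl
    field_simp
    ring
  have h15 : pc ^ r / (64 * mm) ≤ (|M| * 2 ^ k + 2 ^ k) * ((2 : ℝ) ^ j / nn j) := by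
    have h16 := mul_le_mul_of_nonneg_right h13 (by positivity : (0 : ℝ) ≤ (nn j : ℝ) ^ 6)
    have h17 : pc ^ r * bl j * (nn j : ℝ) ^ 6 = pc ^ r / (64 * mm) := by
      rw [h14]
      field_simp
    have h18 : (|M| * (2 ^ k * (1 / (nn j : ℝ) ^ 7)) + 2 ^ k * tt j) * (nn j : ℝ) ^ 6 =
        |M| * 2 ^ k * (1 / nn j) + 2 ^ k * (2 ^ j / nn j / 64) := by
      unfold tt
      field_simp
    rw [h17, h18] at h16
    refine h16.trans ?_
    have h19 : (1 : ℝ) / nn j ≤ 2 ^ j / nn j := div_le_div_of_nonneg_right (one_le_pow₀ (by norm_num)) hn.le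
    have h20 : (2 : ℝ) ^ j / nn j / 64 ≤ 2 ^ j / nn j := div_le_self (by positivity) (by norm_num)
    have h21 := mul_le_mul_of_nonneg_left h19 (by positivity : (0 : ℝ) ≤ |M| * 2 ^ k)
    have h22 := mul_le_mul_of_nonneg_left h20 (by positivity : (0 : ℝ) ≤ (2 : ℝ) ^ k)
    linarith
  linarith

/-- **The quenched survival function**, almost surely -/
theorem main : ∀ᵐ T ∂(gw mu), (∀ k : ℕ, HasExpansion (quenched T) pc k) ∧
    ∀ k : ℕ, 7 ≤ k → ¬ IsClass (quenched T) pc k := by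
  filter_upwards [upper, lower] with T hU hL
  exact ⟨fun k => expansion_of hU k, fun k hk => not_class_of hU hL hk⟩

end Pool.Agent.L5helper52.QU
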